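import Pool.Agent.NG5c.S41Model
import Pool.Agent.NG5c.S41.S0
import Pool.Agent.NG5c.S41.S1
import Pool.Agent.NG5c.S41.S2
import Pool.Agent.NG5c.S41.S3

set_option autoImplicit false
set_option maxRecDepth 100000

namespace Pool.Agent.NG5c

open Pool.Agent.NG5

theorem s41core : S41core :=
  S41core_of (fun _ _ _ C => allSat_false (run13_sound C s41t8 (run13_sound C s41t7 (run13_sound C s41t6 (run13_sound C s41t5 (run13_sound C s41t4 (run13_sound C s41t3 (run13_sound C s41t2 (run13_sound C s41t1 allSat_nil)))))))) (by decide +kernel))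

end Pool.Agent.NG5c
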